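import Pool.Agent.H25.SW.Def


/-! # SW.SW4 : the orthogonal complement of the ideal of the symmetrisers (about 150 lines)

`T'` = the span of all `lt σ (rt τ (sym I))`, `|I| = g + 1`: two-sided.  The bilinear form `⟨α, β⟩ = ∑_σ α σ * β σ` is positive definite, so `1 = ε + ε'` with `ε ∈ T'` and `ε'` orthogonal to `T'`
(Mathlib: `LinearMap.BilinForm.isCompl_orthogonal_of_restrict_nondegenerate`, or in `EuclideanSpace`/`InnerProductSpace` over `ℝ`; over `ℚ` by hand: minimise, or Gram-Schmidt, or `BilinForm`).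
the product of ε' and sym I, the function `σ ↦ ∑_{τ ∈ PJ I} ε' (σ * τ)` (the sum of the `rt τ ε'`, `τ ∈ PJ I`): orthogonal to `T'` (`⟨rt σ γ, α⟩ = ⟨γ, rt σ⁻¹ α⟩`) and in `T'` (it is `∑_σ ε' σ • lt σ (sym I)`), so `0`.  So `∑_{τ ∈ PJ I} ε' (σ * τ) = 0` for all `σ` (`PJ I` is closed under inverse).
For a word `w` there is a letter with at least `g + 1` positions (`g k < m`: `Finset.exists_lt_card_fiber_of_mul_lt_card_of_maps_to`), `I` = a subset of it with `g + 1` elements.  The set of the `ρ` with `w ∘ ρ⁻¹ = w'` is stable under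
`ρ ↦ ρ * τ`, `τ ∈ PJ I`; so `|PJ I| • ∑_ρ = ∑_ρ ∑_τ ε' (ρ * τ) = 0`. -/

namespace H25.SW

open Finset

/-- the standard bilinear form -/
private noncomputable def bf (m : ℕ) : LinearMap.BilinForm ℚ (R m) :=
  LinearMap.mk₂ ℚ (fun α β => ∑ σ, α σ * β σ)
    (fun a b c => by simp only [Pi.add_apply, add_mul, Finset.sum_add_distrib])
    (fun q a b => by simp only [Pi.smul_apply, smul_eq_mul, Finset.mul_sum, mul_assoc])
    (fun a b c => by simp only [Pi.add_apply, mul_add, Finset.sum_add_distrib])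
    (fun q a b => by
      simp only [Pi.smul_apply, smul_eq_mul, Finset.mul_sum]
      exact Finset.sum_congr rfl fun σ _ => by ring)

private theorem bf_apply {m : ℕ} (α β : R m) : bf m α β = ∑ σ, α σ * β σ := rfl

private theorem bf_self {m : ℕ} {α : R m} (h : bf m α α = 0) : α = 0 := by
  rw [bf_apply] at h
  have h1 := (Finset.sum_eq_zero_iff_of_nonneg (fun σ _ => mul_self_nonneg (α σ))).1 h
  funext σ
  exact mul_self_eq_zero.1 (h1 σ (Finset.mem_univ _))

/-- orthogonal decomposition -/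
private theorem decomp {m : ℕ} (T : Submodule ℚ (R m)) (x : R m) :
    ∃ ε ∈ T, ∀ y ∈ T, bf m y (x - ε) = 0 := by
  have hr : (bf m).IsRefl := by
    intro a b hab
    rw [bf_apply] at hab ⊢
    rw [← hab]
    exact Finset.sum_congr rfl fun σ _ => mul_comm _ _
  have hd : Disjoint T ((bf m).orthogonal T) := by
    rw [Submodule.disjoint_def]
    intro y hy hy'
    exact bf_self (hy' y hy)
  have hc := (LinearMap.BilinForm.isCompl_orthogonal_iff_disjoint hr).2 hd
  have hx : x ∈ T ⊔ (bf m).orthogonal T := by rw [hc.sup_eq_top]; trivial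
  obtain ⟨y, hy, z, hz, hyz⟩ := Submodule.mem_sup.1 hx
  refine ⟨y, hy, fun u hu => ?_⟩
  have : x - y = z := by rw [← hyz]; abel
  rw [this]
  exact hz u hu

private theorem mem_PJ {m : ℕ} {J : Finset (Fin m)} {σ : Equiv.Perm (Fin m)} :
    σ ∈ PJ J ↔ ∀ i, i ∉ J → σ i = i := by simp [PJ]

private theorem one_mem_PJ {m : ℕ} (J : Finset (Fin m)) : (1 : Equiv.Perm (Fin m)) ∈ PJ J :=
  mem_PJ.2 fun _ _ => rfl

theorem sw4 {m g k : ℕ} (h : g * k < m) (T : Submodule ℚ (R m)) (hT : TwoSided T)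
    (hs : ∀ I : Finset (Fin m), I.card = g + 1 → sym I ∈ T) : ∃ ε : R m, ε ∈ T ∧ Ker k (one m - ε) := by
  classical
  obtain ⟨ε, hε, ho⟩ := decomp T (one m)
  refine ⟨ε, hε, ?_⟩
  set e : R m := one m - ε with he
  -- the product of `e` with a symmetriser is zero
  have key : ∀ I : Finset (Fin m), I.card = g + 1 → (fun ρ => ∑ σ, e σ * sym I (σ⁻¹ * ρ)) = (0 : R m) := by
    intro I hI
    set F : R m := fun ρ => ∑ σ, e σ * sym I (σ⁻¹ * ρ) with hF
    have hFT : F ∈ T := by
      have : F = ∑ σ, e σ • lt σ (sym I) := by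
        funext ρ
        simp [hF, lt, Finset.sum_apply]
      rw [this]
      exact T.sum_mem fun σ _ => T.smul_mem _ (hT σ _ (hs I hI)).1
    have hperp : ∀ γ ∈ T, bf m γ F = 0 := by
      intro γ hγ
      have hG : (fun σ => ∑ ρ, sym I ρ * γ (σ * ρ) : R m) ∈ T := by
        have : (fun σ => ∑ ρ, sym I ρ * γ (σ * ρ) : R m) = ∑ ρ, sym I ρ • rt ρ⁻¹ γ := by
          funext σ
          simp [rt, Finset.sum_apply]
        rw [this]
        exact T.sum_mem fun ρ _ => T.smul_mem _ (hT ρ⁻¹ _ hγ).2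
      have h0 := ho _ hG
      rw [bf_apply] at h0 ⊢
      rw [← h0]
      have h1 : ∀ ρ, γ ρ * F ρ = ∑ σ, γ ρ * (e σ * sym I (σ⁻¹ * ρ)) := by
        intro ρ
        rw [hF, Finset.mul_sum]
      simp_rw [h1]
      rw [Finset.sum_comm]
      refine Finset.sum_congr rfl fun σ _ => ?_
      rw [Finset.sum_mul]
      refine Fintype.sum_equiv (Equiv.mulLeft σ⁻¹) _ _ fun ρ => ?_
      simp only [Equiv.coe_mulLeft, mul_inv_cancel_left]
      ring
    exact bf_self (hperp F hFT)
  intro w w'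
  obtain ⟨a, -, ha⟩ := Finset.exists_lt_card_fiber_of_mul_lt_card_of_maps_to
    (s := (Finset.univ : Finset (Fin m))) (t := (Finset.univ : Finset (Fin k))) (f := w) (n := g)
    (fun _ _ => Finset.mem_univ _) (by simpa [mul_comm] using h)
  obtain ⟨I, hI, hIc⟩ := Finset.exists_subset_card_eq (Nat.succ_le_of_lt ha)
  have hw : ∀ τ ∈ PJ I, ∀ i, w (τ i) = w i := by
    intro τ hτ i
    by_cases hi : i ∈ I
    · have hτi : τ i ∈ I := by
        by_contra hc
        have h2 := mem_PJ.1 hτ _ hc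
        exact hc (by rw [τ.injective h2]; exact hi)
      have h3 := (Finset.mem_filter.1 (hI hi)).2
      have h4 := (Finset.mem_filter.1 (hI hτi)).2
      rw [h3, h4]
    · rw [mem_PJ.1 hτ i hi]
  have h0 := congrFun (key I hIc)
  have hsum : ∑ ρ : Equiv.Perm (Fin m), (if (fun i => w (ρ.symm i)) = w' then (∑ σ, e σ * sym I (σ⁻¹ * ρ)) else 0) = 0 := by
    refine Finset.sum_eq_zero fun ρ _ => ?_
    split_ifs
    · exact h0 ρ
    · rfl
  have hinner : ∀ σ : Equiv.Perm (Fin m),
      ∑ ρ : Equiv.Perm (Fin m), (if (fun i => w (ρ.symm i)) = w' then e σ * sym I (σ⁻¹ * ρ) else 0)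
        = (if (fun i => w (σ.symm i)) = w' then e σ else 0) * (∑ τ, sym I τ) := by
    intro σ
    rw [Finset.mul_sum]
    refine Fintype.sum_equiv (Equiv.mulLeft σ⁻¹) _ _ fun ρ => ?_
    simp only [Equiv.coe_mulLeft]
    by_cases hρ : σ⁻¹ * ρ ∈ PJ I
    · have h5 : (fun i => w (ρ.symm i)) = (fun i => w (σ.symm i)) := by
        funext i
        have h6 := hw _ hρ (ρ.symm i)
        rw [Equiv.Perm.mul_apply, Equiv.apply_symm_apply] at h6
        exact h6.symm
      rw [h5]
      split_ifs <;> simp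
    · have h6 : sym I (σ⁻¹ * ρ) = 0 := by simp [sym, hρ]
      rw [h6]
      simp
  have htot : (∑ σ : Equiv.Perm (Fin m), (if (fun i => w (σ.symm i)) = w' then e σ else 0)) * (∑ τ, sym I τ) = 0 := by
    refine Eq.trans ?_ hsum
    rw [Finset.sum_mul, Finset.sum_congr rfl fun σ _ => (hinner σ).symm, Finset.sum_comm]
    refine Finset.sum_congr rfl fun ρ _ => ?_
    split_ifs
    · rfl
    · simp
  have hpos : (∑ τ, sym I τ) ≠ 0 := by
    have : (1 : ℚ) ≤ ∑ τ, sym I τ := by
      have h7 : sym I 1 ≤ ∑ τ, sym I τ :=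
        Finset.single_le_sum (f := fun τ => sym I τ) (fun τ _ => by unfold sym; split_ifs <;> norm_num) (Finset.mem_univ _)
      simpa [sym, one_mem_PJ] using h7
    linarith
  exact (mul_eq_zero.1 htot).resolve_right hpos

end H25.SW
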