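import Pool.Agent.H25.SW.SW3
import Pool.Agent.H25.SW.SW4


/-! # SW.Main : symmetrisers and antisymmetrisers generate the group algebra (about 100 lines)

`sw`: `sw4`, `sw3`.  `sw_mod`: `A` a torsion-free abelian group with an additive action `act` of the symmetric group; `T = {α | ∀ τ, ∃ n > 0 ..}`: take
`T` = the `α ∈ R m` such that for all `τ` and all `n : ℕ`, all integral `c : Perm → ℤ` with `c σ = n * α σ` for all `σ`, `∑ σ, c σ • act (σ * τ) x = 0`
(it is a submodule because `A` is torsion-free), two-sided; `alt`, `sym` are in it. -/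

namespace H25.SW

theorem sw {m g k : ℕ} (h : g * k < m) (T : Submodule ℚ (R m)) (hT : TwoSided T)
    (ha : ∀ J : Finset (Fin m), J.card = k + 1 → alt J ∈ T)
    (hs : ∀ I : Finset (Fin m), I.card = g + 1 → sym I ∈ T) : one m ∈ T := by
  obtain ⟨ε, h1, h2⟩ := sw4 h T hT hs
  have h3 := T.add_mem h1 (sw3 T hT ha h2)
  rwa [add_sub_cancel] at h3

/-- the version for an element of a torsion-free group with an action of the symmetric group -/
theorem sw_mod {m g k : ℕ} (h : g * k < m) {A : Type} [AddCommGroup A] (hA : ∀ (n : ℕ) (x : A), 0 < n → n • x = 0 → x = 0)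
    (act : Equiv.Perm (Fin m) → A →+ A) (h1 : ∀ x, act 1 x = x) (h2 : ∀ σ τ x, act (σ * τ) x = act σ (act τ x)) (x : A)
    (ha : ∀ (J : Finset (Fin m)) (τ : Equiv.Perm (Fin m)), J.card = k + 1 →
      ∑ σ ∈ PJ J, (Equiv.Perm.sign σ : ℤ) • act (σ * τ) x = 0)
    (hs : ∀ (I : Finset (Fin m)) (τ : Equiv.Perm (Fin m)), I.card = g + 1 → ∑ σ ∈ PJ I, act (σ * τ) x = 0) : x = 0 := by
  classical
  let T : Submodule ℚ (R m) :=
    { carrier := {α | ∃ D : ℕ, 0 < D ∧ ∃ c : Equiv.Perm (Fin m) → ℤ, (∀ σ, (c σ : ℚ) = D * α σ) ∧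
        ∀ τ, ∑ σ, c σ • act (σ * τ) x = 0}
      zero_mem' := ⟨1, one_pos, fun _ => 0, fun σ => by simp, fun τ => by simp⟩
      add_mem' := by
        rintro α β ⟨D, hD, c, hc, h⟩ ⟨D', hD', c', hc', h'⟩
        refine ⟨D * D', Nat.mul_pos hD hD', fun σ => D' * c σ + D * c' σ, fun σ => ?_, fun τ => ?_⟩
        · push_cast
          rw [hc, hc', Pi.add_apply]
          ring
        · have h3 := h τ
          have h4 := h' τ
          simp only [add_smul, mul_smul, Finset.sum_add_distrib, ← Finset.smul_sum]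
          rw [h3, h4, smul_zero, smul_zero, add_zero]
      smul_mem' := by
        rintro q α ⟨D, hD, c, hc, h⟩
        refine ⟨D * q.den, Nat.mul_pos hD q.den_pos, fun σ => q.num * c σ, fun σ => ?_, fun τ => ?_⟩
        · push_cast
          rw [hc, Pi.smul_apply, smul_eq_mul]
          have hq : (q.num : ℚ) = q * q.den := (Rat.mul_den_eq_num q).symm
          rw [hq]
          ring
        · simp only [mul_smul, ← Finset.smul_sum]
          rw [h τ, smul_zero] }
  have hT : TwoSided T := by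
    rintro σ₀ α ⟨D, hD, c, hc, h⟩
    refine ⟨⟨D, hD, fun ρ => c (σ₀⁻¹ * ρ), fun ρ => hc _, fun τ => ?_⟩,
      ⟨D, hD, fun ρ => c (ρ * σ₀⁻¹), fun ρ => hc _, fun τ => ?_⟩⟩
    · have h3 := congrArg (act σ₀) (h τ)
      rw [map_zero, map_sum] at h3
      rw [← h3]
      refine Fintype.sum_equiv (Equiv.mulLeft σ₀⁻¹) _ _ fun ρ => ?_
      simp only [Equiv.coe_mulLeft]
      rw [map_zsmul, ← h2, mul_assoc, mul_inv_cancel_left]
    · have h3 := h (σ₀ * τ)
      rw [← h3]
      refine Fintype.sum_equiv (Equiv.mulRight σ₀⁻¹) _ _ fun ρ => ?_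
      simp only [Equiv.coe_mulRight]
      rw [mul_assoc, inv_mul_cancel_left]
  have hA1 : ∀ J : Finset (Fin m), J.card = k + 1 → alt J ∈ T := by
    intro J hJ
    refine ⟨1, one_pos, fun ρ => if ρ ∈ PJ J then (Equiv.Perm.sign ρ : ℤ) else 0, fun ρ => ?_, fun τ => ?_⟩
    · simp only [alt, Nat.cast_one, one_mul]
      split_ifs <;> simp
    · rw [← ha J τ hJ]
      simp only [ite_smul, zero_smul, Finset.sum_ite_mem, Finset.univ_inter]
  have hS1 : ∀ I : Finset (Fin m), I.card = g + 1 → sym I ∈ T := by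
    intro I hI
    refine ⟨1, one_pos, fun ρ => if ρ ∈ PJ I then 1 else 0, fun ρ => ?_, fun τ => ?_⟩
    · simp only [sym, Nat.cast_one, one_mul]
      split_ifs <;> simp
    · rw [← hs I τ hI]
      simp only [ite_smul, zero_smul, one_smul, Finset.sum_ite_mem, Finset.univ_inter]
  obtain ⟨D, hD, c, hc, h3⟩ := sw h T hT hA1 hS1
  have hc' : ∀ σ, c σ = if σ = 1 then (D : ℤ) else 0 := by
    intro σ
    have h4 := hc σ
    unfold one at h4
    split_ifs at h4 ⊢ with h5
    · rw [mul_one] at h4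
      exact_mod_cast h4
    · rw [mul_zero] at h4
      exact_mod_cast h4
  have h4 := h3 1
  simp only [hc', ite_smul, zero_smul, Finset.sum_ite_eq', Finset.mem_univ, if_true, mul_one] at h4
  rw [h1, natCast_zsmul] at h4
  exact hA D x hD h4

end H25.SW
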