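import Mathlib


/-! # SW.Def : symmetrisers and antisymmetrisers in the group algebra of the symmetric group (definitions, no sorry)

The group algebra `ℚ[S_m]` is written as the space of functions on the group; `lt σ α` is `σ α` and `rt σ α` is `α σ`.

GOAL (`SW.Main.sw`): if `m > g k`, a two-sided ideal which contains the antisymmetrisers of all `(k+1)`-subsets and the symmetrisers of
all `(g+1)`-subsets contains `1` (every Young diagram with more than `g k` boxes has more than `k` rows or more than `g` columns), proved without representation theory.

PROOF. `k` letters; words `w : Fin m → Fin k`; `Ker` = the elements `α` which act as `0` on the words.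
(SW1) every `σ` is modulo the antisymmetrisers a combination of good permutations (no decreasing subsequence of length `k + 1`): if `σ` decreases at the positions `i_0 < ... < i_k`, then `σ` is the
lexicographically largest of the `σ τ`, `τ` a permutation of the set `J` of these positions.
(SW2) the good permutations are linearly independent as operators on words: colour the position `i` by the length of the longest decreasing subsequence of `σ` which ends at `i` (minus one); `σ` is increasing on each colour class, so it is the
lexicographically smallest `ρ` with `ρ w = σ w`; take `σ` lexicographically largest with coefficient `≠ 0`.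
(SW3) so an element of `Ker` is in the ideal generated by the antisymmetrisers.
(SW4) let `1 = ε + ε'` with `ε` in the ideal `T'` generated by the symmetrisers and `ε'` orthogonal to it; `ε' sym I = 0` because it is in `T'` and orthogonal to `T'`; every word has a letter
which is repeated `g + 1` times, so `ε'` kills every word: `ε' ∈ Ker`. -/

namespace H25.SW

/-- the group algebra, as functions on the group -/
abbrev R (m : ℕ) : Type := Equiv.Perm (Fin m) → ℚ

/-- multiplication by `σ` on the left -/
def lt {m : ℕ} (σ : Equiv.Perm (Fin m)) (α : R m) : R m := fun ρ => α (σ⁻¹ * ρ)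

/-- multiplication by `σ` on the right -/
def rt {m : ℕ} (σ : Equiv.Perm (Fin m)) (α : R m) : R m := fun ρ => α (ρ * σ⁻¹)

/-- the permutations of the subset `J` -/
def PJ {m : ℕ} (J : Finset (Fin m)) : Finset (Equiv.Perm (Fin m)) := Finset.univ.filter (fun σ => ∀ i, i ∉ J → σ i = i)

/-- the antisymmetriser of `J` -/
def alt {m : ℕ} (J : Finset (Fin m)) : R m := fun ρ => if ρ ∈ PJ J then ((Equiv.Perm.sign ρ : ℤ) : ℚ) else 0

/-- the symmetriser of `J` -/
def sym {m : ℕ} (J : Finset (Fin m)) : R m := fun ρ => if ρ ∈ PJ J then 1 else 0

/-- the unit element -/
def one (m : ℕ) : R m := fun ρ => if ρ = 1 then 1 else 0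

/-- a two-sided ideal, as a subspace -/
def TwoSided {m : ℕ} (T : Submodule ℚ (R m)) : Prop :=
  ∀ (σ : Equiv.Perm (Fin m)) (x : R m), x ∈ T → lt σ x ∈ T ∧ rt σ x ∈ T

/-- no decreasing subsequence of length `n` -/
def Good {m : ℕ} (n : ℕ) (σ : Equiv.Perm (Fin m)) : Prop :=
  ¬ ∃ i : Fin n → Fin m, StrictMono i ∧ StrictAnti (fun j => σ (i j))

/-- `α` acts as zero on all words in `k` letters (`ρ` sends the word `w` to `w ∘ ρ⁻¹`) -/
def Ker {m : ℕ} (k : ℕ) (α : R m) : Prop :=
  ∀ (w : Fin m → Fin k) (w' : Fin m → Fin k), ∑ ρ : Equiv.Perm (Fin m), (if (fun i => w (ρ.symm i)) = w' then α ρ else 0) = 0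

end H25.SW
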