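import Pool.Agent.H25.SW.Def


/-! # SW.SW1 : reduction to good permutations (about 120 lines)

Strong induction on `σ` for the lexicographic order (of the functions `Fin m → Fin m`: `toLex`, finite linear order; `Finite.induction_..`/`WellFounded.induction`).  If `σ` is not good: `i : Fin (k+1) → Fin m` as in
`Good`, `J` = the image of `i`, `|J| = k + 1`.  `lt σ (alt J) ∈ T`, and it is `σ + ∑_{τ ∈ PJ J, τ ≠ 1} sign τ • σ τ` (`σ` means the function `lt σ (one m)`; every `α` is `∑ σ, α σ • lt σ (one m)`); for `τ ≠ 1` in `PJ J`, `σ * τ < σ` lexicographically: let `p` be the first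
position with `τ p ≠ p`, `p ∈ J`, then `τ p > p` is in `J` (the positions before `p` are fixed, so `τ p` is not one of them), and `σ` is decreasing on `J`: `σ (τ p) < σ p`. -/

namespace H25.SW

private def Smaller {m : ℕ} (ρ σ : Equiv.Perm (Fin m)) : Prop :=
  ∃ p : Fin m, (∀ j, j < p → ρ j = σ j) ∧ ρ p < σ p

private theorem smaller_wf {m : ℕ} : WellFounded (Smaller (m := m)) := by
  have h : IsTrans (Equiv.Perm (Fin m)) Smaller := ⟨by
    rintro a b c ⟨p, hp1, hp2⟩ ⟨q, hq1, hq2⟩
    rcases lt_trichotomy p q with hpq | hpq | hpq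
    · exact ⟨p, fun j hj => (hp1 j hj).trans (hq1 j (hj.trans hpq)), by rw [← hq1 p hpq]; exact hp2⟩
    · subst hpq
      exact ⟨p, fun j hj => (hp1 j hj).trans (hq1 j hj), hp2.trans hq2⟩
    · exact ⟨q, fun j hj => (hp1 j (hj.trans hpq)).trans (hq1 j hj), by rw [hp1 q hpq]; exact hq2⟩⟩
  have h' : Std.Irrefl (Smaller (m := m)) := ⟨by
    rintro a ⟨p, _, hp2⟩
    exact lt_irrefl _ hp2⟩
  exact Finite.wellFounded_of_trans_of_irrefl _

private theorem smaller_mul {m k : ℕ} {σ τ : Equiv.Perm (Fin m)} {i : Fin (k + 1) → Fin m}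
    (hi : StrictMono i) (hσ : StrictAnti (fun j => σ (i j)))
    (hτ : τ ∈ PJ (Finset.univ.image i)) (hτ1 : τ ≠ 1) : Smaller (σ * τ) σ := by
  classical
  have hfix : ∀ j, j ∉ Finset.univ.image i → τ j = j := (Finset.mem_filter.1 hτ).2
  have hne : {p : Fin m | τ p ≠ p}.Nonempty := by
    by_contra hcon
    rw [Set.not_nonempty_iff_eq_empty] at hcon
    apply hτ1
    ext p
    have : p ∉ {p : Fin m | τ p ≠ p} := by rw [hcon]; exact Set.notMem_empty p
    have h2 : τ p = p := by
      by_contra h3
      exact this h3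
    rw [h2]; rfl
  obtain ⟨p, hp, hmin⟩ := WellFounded.has_min (wellFounded_lt (α := Fin m)) _ hne
  have hlow : ∀ j, j < p → τ j = j := by
    intro j hj
    by_contra h3
    exact hmin j h3 hj
  have hp' : τ p ≠ p := hp
  have hpJ : p ∈ Finset.univ.image i := by
    by_contra h3
    exact hp' (hfix p h3)
  have hτpJ : τ p ∈ Finset.univ.image i := by
    by_contra h3
    exact hp' (τ.injective (hfix _ h3))
  have hlt : p < τ p := by
    rcases lt_trichotomy p (τ p) with h3 | h3 | h3
    · exact h3
    · exact absurd h3.symm hp'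
    · exact absurd (τ.injective (hlow _ h3)) hp'
  obtain ⟨a, _, ha⟩ := Finset.mem_image.1 hpJ
  obtain ⟨b, _, hb⟩ := Finset.mem_image.1 hτpJ
  refine ⟨p, fun j hj => ?_, ?_⟩
  · rw [Equiv.Perm.mul_apply, hlow j hj]
  · rw [Equiv.Perm.mul_apply, ← hb, ← ha]
    apply hσ
    rw [← hi.lt_iff_lt, ha, hb]
    exact hlt

theorem sw1 {m k : ℕ} (T : Submodule ℚ (R m)) (hT : TwoSided T) (h : ∀ J : Finset (Fin m), J.card = k + 1 → alt J ∈ T)
    (α : R m) : ∃ β : R m, α - β ∈ T ∧ ∀ ρ, β ρ ≠ 0 → Good (k + 1) ρ := by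
  classical
  let G : Submodule ℚ (R m) :=
    { carrier := {β | ∀ ρ, β ρ ≠ 0 → Good (k + 1) ρ}
      add_mem' := by
        intro a b ha hb ρ hρ
        by_cases h1 : a ρ = 0
        · refine hb ρ fun h2 => hρ ?_
          show a ρ + b ρ = 0
          rw [h1, h2, add_zero]
        · exact ha ρ h1
      zero_mem' := by
        intro ρ hρ
        exact absurd rfl hρ
      smul_mem' := by
        intro c a ha ρ hρ
        refine ha ρ fun h2 => hρ ?_
        show c * a ρ = 0
        rw [h2, mul_zero] }
  have key : ∀ σ : Equiv.Perm (Fin m), (Pi.single σ 1 : R m) ∈ T ⊔ G := by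
    intro σ
    induction σ using smaller_wf.induction with
    | _ σ ih =>
    by_cases hg : Good (k + 1) σ
    · apply Submodule.mem_sup_right
      intro ρ hρ
      by_cases h1 : ρ = σ
      · rw [h1]; exact hg
      · rw [Pi.single_eq_of_ne h1] at hρ
        exact absurd rfl hρ
    · unfold Good at hg
      rw [not_not] at hg
      obtain ⟨i, hi, hσ⟩ := hg
      set J : Finset (Fin m) := Finset.univ.image i with hJ
      have hcard : J.card = k + 1 := by
        rw [hJ, Finset.card_image_of_injective _ hi.injective, Finset.card_univ, Fintype.card_fin]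
      have h1 : lt σ (alt J) ∈ T := (hT σ _ (h J hcard)).1
      have h1J : (1 : Equiv.Perm (Fin m)) ∈ PJ J := by
        unfold PJ
        rw [Finset.mem_filter]
        exact ⟨Finset.mem_univ _, fun j _ => rfl⟩
      have h2 : lt σ (alt J) = ∑ τ ∈ PJ J, ((Equiv.Perm.sign τ : ℤ) : ℚ) •
          (Pi.single (σ * τ) 1 : R m) := by
        funext ρ
        rw [Finset.sum_apply]
        unfold lt alt
        by_cases h3 : σ⁻¹ * ρ ∈ PJ J
        · rw [if_pos h3, Finset.sum_eq_single (σ⁻¹ * ρ)]
          · rw [Pi.smul_apply, mul_inv_cancel_left, Pi.single_eq_same, smul_eq_mul, mul_one]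
          · intro τ _ hτ
            rw [Pi.smul_apply, Pi.single_eq_of_ne, smul_zero]
            intro h4
            apply hτ
            rw [h4, inv_mul_cancel_left]
          · intro h4
            exact absurd h3 h4
        · rw [if_neg h3, Finset.sum_eq_zero]
          intro τ hτ
          rw [Pi.smul_apply, Pi.single_eq_of_ne, smul_zero]
          intro h4
          apply h3
          rw [h4, inv_mul_cancel_left]
          exact hτ
      rw [← Finset.add_sum_erase _ _ h1J] at h2
      rw [Equiv.Perm.sign_one, mul_one] at h2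
      have h5 : (Pi.single σ 1 : R m) = lt σ (alt J) - ∑ τ ∈ (PJ J).erase 1,
          ((Equiv.Perm.sign τ : ℤ) : ℚ) • (Pi.single (σ * τ) 1 : R m) := by
        rw [h2]
        simp
      rw [h5]
      refine Submodule.sub_mem _ (Submodule.mem_sup_left h1) (Submodule.sum_mem _ fun τ hτ => ?_)
      rw [Finset.mem_erase] at hτ
      exact Submodule.smul_mem _ _ (ih (σ * τ) (smaller_mul hi hσ hτ.2 hτ.1))
  have hα : α ∈ T ⊔ G := by
    have h1 : α = ∑ σ : Equiv.Perm (Fin m), α σ • (Pi.single σ 1 : R m) := by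
      funext ρ
      rw [Finset.sum_apply, Finset.sum_eq_single ρ]
      · rw [Pi.smul_apply, Pi.single_eq_same, smul_eq_mul, mul_one]
      · intro σ _ hσ
        rw [Pi.smul_apply, Pi.single_eq_of_ne hσ.symm, smul_zero]
      · intro h2
        exact absurd (Finset.mem_univ _) h2
    rw [h1]
    exact Submodule.sum_mem _ fun σ _ => Submodule.smul_mem _ _ (key σ)
  obtain ⟨t, ht, β, hβ, hsum⟩ := Submodule.mem_sup.1 hα
  refine ⟨β, ?_, hβ⟩
  rw [← hsum, add_sub_cancel_right]
  exact ht

end H25.SW
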