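import Pool.Agent.H25.SW.Def


/-! # SW.SW2 : good permutations are linearly independent on words (about 120 lines)

Suppose `β ≠ 0` and take `σ` lexicographically largest with `β σ ≠ 0`.  Colour: `w i + 1` = the maximal `n` such that there is `j : Fin n → Fin m` strictly increasing with `σ ∘ j` strictly decreasing and
last position `i` (`1 ≤ n ≤ k` because `σ` is good).  If `i < i'` have the same colour then `σ i < σ i'` (otherwise append `i'` to a maximal sequence ending at `i`).  Let `w' = w ∘ σ⁻¹`.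
If `w ∘ ρ⁻¹ = w'`, `ρ ≠ σ`, then `σ < ρ` lexicographically: let `p` be the first position with `ρ p ≠ σ p`; the position `q = σ⁻¹ (ρ p)` has the colour of `p` (`w (ρ⁻¹ (ρ p)) = w (σ⁻¹ (ρ p))`), `q ≠ p`, and `q ≥ p` because for `q < p` we have
`ρ q = σ q = ρ p`; so `p < q` and `σ p < σ q = ρ p`.  So `β ρ = 0` for all these `ρ` by maximality of `σ`, and the sum in `Ker` is `β σ`. -/

namespace H25.SW

private def DecEnd {m : ℕ} (σ : Equiv.Perm (Fin m)) (i : Fin m) (n : ℕ) : Prop :=
  ∃ j : Fin (n + 1) → Fin m, StrictMono j ∧ StrictAnti (fun a => σ (j a)) ∧ j (Fin.last n) = i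

private theorem decEnd_zero {m : ℕ} (σ : Equiv.Perm (Fin m)) (i : Fin m) : DecEnd σ i 0 := by
  refine ⟨fun _ => i, ?_, ?_, rfl⟩
  · intro a b hab
    have h1 : (a : ℕ) < b := hab
    omega
  · intro a b hab
    have h1 : (a : ℕ) < b := hab
    omega

private theorem decEnd_lt {m k : ℕ} {σ : Equiv.Perm (Fin m)} (hg : Good (k + 1) σ) {i : Fin m} {n : ℕ}
    (h : DecEnd σ i n) : n < k := by
  by_contra hcon
  rw [not_lt] at hcon
  obtain ⟨j, hj1, hj2, _⟩ := h
  apply hg
  have hle : k + 1 ≤ n + 1 := Nat.succ_le_succ hcon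
  refine ⟨fun a => j (Fin.castLE hle a), ?_, ?_⟩
  · intro a b hab
    exact hj1 (by simpa using hab)
  · intro a b hab
    exact hj2 (show Fin.castLE hle a < Fin.castLE hle b by simpa using hab)

private theorem decEnd_succ {m : ℕ} {σ : Equiv.Perm (Fin m)} {i i' : Fin m} (hi : i < i') (hσ : σ i' < σ i)
    {n : ℕ} (h : DecEnd σ i n) : DecEnd σ i' (n + 1) := by
  obtain ⟨j, hj1, hj2, hj3⟩ := h
  refine ⟨Fin.snoc (α := fun _ => Fin m) j i', ?_, ?_, ?_⟩
  · rw [Fin.strictMono_iff_lt_succ]
    intro a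
    refine Fin.lastCases ?_ (fun b => ?_) a
    · rw [Fin.succ_last, Fin.snoc_last, Fin.snoc_castSucc, hj3]
      exact hi
    · rw [Fin.succ_castSucc, Fin.snoc_castSucc, Fin.snoc_castSucc]
      exact hj1 (Fin.castSucc_lt_succ)
  · rw [Fin.strictAnti_iff_succ_lt]
    intro a
    refine Fin.lastCases ?_ (fun b => ?_) a
    · rw [Fin.succ_last, Fin.snoc_last, Fin.snoc_castSucc, hj3]
      exact hσ
    · rw [Fin.succ_castSucc, Fin.snoc_castSucc, Fin.snoc_castSucc]
      exact hj2 (Fin.castSucc_lt_succ)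
  · rw [Fin.snoc_last]

theorem sw2 {m k : ℕ} {β : R m} (h : Ker k β) (hg : ∀ ρ, β ρ ≠ 0 → Good (k + 1) ρ) : β = 0 := by
  classical
  by_contra hβ
  have hne : (Finset.univ.filter (fun σ : Equiv.Perm (Fin m) => β σ ≠ 0)).Nonempty := by
    by_contra hcon
    rw [Finset.not_nonempty_iff_eq_empty] at hcon
    apply hβ
    funext σ
    by_contra h1
    have : σ ∈ Finset.univ.filter (fun σ : Equiv.Perm (Fin m) => β σ ≠ 0) :=
      Finset.mem_filter.mpr ⟨Finset.mem_univ _, h1⟩
    rw [hcon] at this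
    exact Finset.notMem_empty _ this
  obtain ⟨σ, hσ, hmax⟩ := Finset.exists_max_image _ (fun σ : Equiv.Perm (Fin m) => toLex (σ : Fin m → Fin m)) hne
  have hσ0 : β σ ≠ 0 := (Finset.mem_filter.mp hσ).2
  have hgood := hg σ hσ0
  let c : Fin m → ℕ := fun i => Nat.findGreatest (DecEnd σ i) k
  have hc1 : ∀ i, DecEnd σ i (c i) := fun i => Nat.findGreatest_spec (Nat.zero_le k) (decEnd_zero σ i)
  have hc2 : ∀ i, c i < k := fun i => decEnd_lt hgood (hc1 i)
  have hc3 : ∀ i i', i < i' → σ i' < σ i → c i < c i' := by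
    intro i i' hi hs
    have h1 := decEnd_succ hi hs (hc1 i)
    exact Nat.le_findGreatest (Nat.succ_le_of_lt (hc2 i)) h1
  have hc4 : ∀ i i', i < i' → c i = c i' → σ i < σ i' := by
    intro i i' hi hcc
    by_contra hcon
    have h1 : σ i' < σ i := lt_of_le_of_ne (not_lt.mp hcon) (fun h2 => (ne_of_lt hi) (σ.injective h2).symm)
    exact (ne_of_lt (hc3 i i' hi h1)) hcc
  let w : Fin m → Fin k := fun i => ⟨c i, hc2 i⟩
  have hsum := h w (fun i => w (σ.symm i))
  rw [Finset.sum_eq_single σ] at hsum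
  · rw [if_pos rfl] at hsum
    exact hσ0 hsum
  · intro ρ _ hρ
    rw [ite_eq_right_iff]
    intro hw
    by_contra hβρ
    have hle := hmax ρ (Finset.mem_filter.mpr ⟨Finset.mem_univ _, hβρ⟩)
    have hdiff : {p : Fin m | ρ p ≠ σ p}.Nonempty := by
      by_contra hcon
      rw [Set.not_nonempty_iff_eq_empty] at hcon
      apply hρ
      apply Equiv.ext
      intro p
      by_contra h3
      have : p ∈ {p : Fin m | ρ p ≠ σ p} := h3
      rw [hcon] at this
      exact this
    obtain ⟨p, hp, hmin⟩ := WellFounded.has_min (wellFounded_lt (α := Fin m)) _ hdiff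
    have hlow : ∀ j, j < p → ρ j = σ j := by
      intro j hj
      by_contra h3
      exact hmin j h3 hj
    have hp' : ρ p ≠ σ p := hp
    set q : Fin m := σ.symm (ρ p) with hq
    have hσq : σ q = ρ p := by rw [hq, Equiv.apply_symm_apply]
    have hwq : w p = w q := by
      have h4 := congrFun hw (ρ p)
      simp only [Equiv.symm_apply_apply] at h4
      exact h4
    have hcq : c p = c q := congrArg Fin.val hwq
    have hqp : q ≠ p := by
      intro h5
      rw [h5] at hσq
      exact hp' hσq.symm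
    have hpq : p < q := by
      rcases lt_trichotomy p q with h5 | h5 | h5
      · exact h5
      · exact absurd h5.symm hqp
      · have h6 := hlow q h5
        rw [hσq] at h6
        exact absurd (ρ.injective h6) hqp
    have h7 : σ p < ρ p := by
      rw [← hσq]
      exact hc4 p q hpq hcq
    have hlt : toLex (σ : Fin m → Fin m) < toLex (ρ : Fin m → Fin m) :=
      ⟨p, fun j hj => (hlow j hj).symm, h7⟩
    exact absurd hle (not_le.mpr hlt)
  · intro h1
    exact absurd (Finset.mem_univ _) h1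

end H25.SW
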