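import Pool.Agent.H25.SW.SW1
import Pool.Agent.H25.SW.SW2


/-! # SW.SW3 : the operators which vanish on words -/

namespace H25.SW

private theorem ker_add {m k : ℕ} {α β : R m} (ha : Ker k α) (hb : Ker k β) : Ker k (α + β) := by
  intro w w'
  have e : ∀ ρ : Equiv.Perm (Fin m), (if (fun i => w (ρ.symm i)) = w' then (α + β) ρ else 0) =
      (if (fun i => w (ρ.symm i)) = w' then α ρ else 0) + (if (fun i => w (ρ.symm i)) = w' then β ρ else 0) := by
    intro ρ
    split_ifs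
    · rfl
    · rw [add_zero]
  rw [Finset.sum_congr rfl (fun ρ _ => e ρ), Finset.sum_add_distrib, ha w w', hb w w', add_zero]

private theorem ker_smul {m k : ℕ} {α : R m} (c : ℚ) (ha : Ker k α) : Ker k (c • α) := by
  intro w w'
  have e : ∀ ρ : Equiv.Perm (Fin m), (if (fun i => w (ρ.symm i)) = w' then (c • α) ρ else 0) =
      c * (if (fun i => w (ρ.symm i)) = w' then α ρ else 0) := by
    intro ρ
    split_ifs
    · rfl
    · rw [mul_zero]
  rw [Finset.sum_congr rfl (fun ρ _ => e ρ), ← Finset.mul_sum, ha w w', mul_zero]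

private theorem ker_zero {m k : ℕ} : Ker k (0 : R m) := by
  intro w w'
  apply Finset.sum_eq_zero
  intro ρ _
  split_ifs <;> rfl

private theorem ker_alt {m k : ℕ} {J : Finset (Fin m)} (hJ : J.card = k + 1) : Ker k (alt J) := by
  intro w w'
  obtain ⟨p, hp, q, hq, hpq, hw⟩ := Finset.exists_ne_map_eq_of_card_lt_of_maps_to
    (s := J) (t := (Finset.univ : Finset (Fin k))) (by rw [hJ]; simp) (f := w) (fun i _ => Finset.mem_univ _)
  have hws : ∀ i, w (Equiv.swap p q i) = w i := by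
    intro i
    by_cases h1 : i = p
    · rw [h1, Equiv.swap_apply_left, hw]
    · by_cases h2 : i = q
      · rw [h2, Equiv.swap_apply_right, hw]
      · rw [Equiv.swap_apply_of_ne_of_ne h1 h2]
  have hmem : ∀ ρ : Equiv.Perm (Fin m), ρ ∈ PJ J → ρ * Equiv.swap p q ∈ PJ J := by
    intro ρ hρ
    unfold PJ at hρ ⊢
    rw [Finset.mem_filter] at hρ ⊢
    refine ⟨Finset.mem_univ _, fun i hi => ?_⟩
    have h1 : i ≠ p := fun h => hi (h ▸ hp)
    have h2 : i ≠ q := fun h => hi (h ▸ hq)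
    rw [Equiv.Perm.mul_apply, Equiv.swap_apply_of_ne_of_ne h1 h2]
    exact hρ.2 i hi
  have hmem' : ∀ ρ : Equiv.Perm (Fin m), ρ * Equiv.swap p q ∈ PJ J → ρ ∈ PJ J := by
    intro ρ hρ
    have := hmem _ hρ
    rwa [mul_assoc, Equiv.swap_mul_self, mul_one] at this
  have halt : ∀ ρ : Equiv.Perm (Fin m), alt J (ρ * Equiv.swap p q) = - alt J ρ := by
    intro ρ
    unfold alt
    by_cases h : ρ ∈ PJ J
    · rw [if_pos h, if_pos (hmem ρ h), map_mul, Equiv.Perm.sign_swap hpq]
      push_cast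
      ring
    · rw [if_neg h, if_neg (fun h' => h (hmem' ρ h')), neg_zero]
  set S : ℚ := ∑ ρ : Equiv.Perm (Fin m), (if (fun i => w (ρ.symm i)) = w' then alt J ρ else 0) with hS
  have h1 : S = - S := by
    conv_lhs => rw [hS]
    rw [← Equiv.sum_comp (Equiv.mulRight (Equiv.swap p q)), hS, ← Finset.sum_neg_distrib]
    apply Finset.sum_congr rfl
    intro ρ _
    have e1 : (fun i => w ((Equiv.mulRight (Equiv.swap p q) ρ).symm i)) = fun i => w (ρ.symm i) := by
      funext i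
      show w ((ρ * Equiv.swap p q)⁻¹ i) = w (ρ⁻¹ i)
      rw [mul_inv_rev, Equiv.Perm.mul_apply, Equiv.swap_inv, hws]
    rw [e1]
    split_ifs
    · exact halt ρ
    · rw [neg_zero]
  linarith

private theorem ker_lr {m k : ℕ} {α : R m} (σ τ : Equiv.Perm (Fin m)) (h : Ker k α) : Ker k (lt σ (rt τ α)) := by
  intro w w'
  have h1 := h (fun i => w (τ⁻¹ i)) (fun i => w' (σ i))
  refine Eq.trans ?_ h1
  symm
  apply Fintype.sum_equiv ((Equiv.mulLeft σ).trans (Equiv.mulRight τ))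
  intro π
  have e0 : ((Equiv.mulLeft σ).trans (Equiv.mulRight τ)) π = σ * π * τ := rfl
  rw [e0]
  have e1 : lt σ (rt τ α) (σ * π * τ) = α π := by
    unfold lt rt
    congr 1
    group
  have e2 : ((fun i => w (τ⁻¹ (π.symm i))) = fun i => w' (σ i)) ↔ (fun i => w ((σ * π * τ).symm i)) = w' := by
    have e3 : ∀ i, (σ * π * τ).symm i = τ⁻¹ (π.symm (σ⁻¹ i)) := by
      intro i
      show (σ * π * τ)⁻¹ i = τ⁻¹ (π⁻¹ (σ⁻¹ i))
      rw [mul_inv_rev, mul_inv_rev]
      rfl
    constructor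
    · intro he
      funext i
      rw [e3]
      have := congrFun he (σ⁻¹ i)
      simpa using this
    · intro he
      funext i
      have := congrFun he (σ i)
      rw [e3] at this
      simpa using this
  rw [e1]
  by_cases hc : (fun i => w ((σ * π * τ).symm i)) = w'
  · rw [if_pos hc, if_pos (e2.2 hc)]
  · rw [if_neg hc, if_neg (fun h' => hc (e2.1 h'))]

theorem sw3 {m k : ℕ} (T : Submodule ℚ (R m)) (hT : TwoSided T) (h : ∀ J : Finset (Fin m), J.card = k + 1 → alt J ∈ T)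
    {α : R m} (hα : Ker k α) : α ∈ T := by
  set T₀ : Submodule ℚ (R m) := Submodule.span ℚ {x | ∃ (σ τ : Equiv.Perm (Fin m)) (J : Finset (Fin m)),
    J.card = k + 1 ∧ x = lt σ (rt τ (alt J))} with hT₀
  have hle : T₀ ≤ T := by
    rw [hT₀, Submodule.span_le]
    rintro x ⟨σ, τ, J, hJ, rfl⟩
    exact (hT σ _ (hT τ _ (h J hJ)).2).1
  have hker : ∀ x ∈ T₀, Ker k x := by
    intro x hx
    induction hx using Submodule.span_induction with
    | mem x hx =>
      obtain ⟨σ, τ, J, hJ, rfl⟩ := hx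
      exact ker_lr σ τ (ker_alt hJ)
    | zero => exact ker_zero
    | add x y _ _ h1 h2 => exact ker_add h1 h2
    | smul c x _ h1 => exact ker_smul c h1
  have htwo : TwoSided T₀ := by
    intro σ' x hx
    induction hx using Submodule.span_induction with
    | mem x hx =>
      obtain ⟨σ, τ, J, hJ, rfl⟩ := hx
      constructor
      · apply Submodule.subset_span
        refine ⟨σ' * σ, τ, J, hJ, ?_⟩
        funext ρ
        show rt τ (alt J) (σ⁻¹ * (σ'⁻¹ * ρ)) = rt τ (alt J) ((σ' * σ)⁻¹ * ρ)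
        rw [mul_inv_rev, mul_assoc]
      · apply Submodule.subset_span
        refine ⟨σ, τ * σ', J, hJ, ?_⟩
        funext ρ
        show alt J (σ⁻¹ * (ρ * σ'⁻¹) * τ⁻¹) = alt J (σ⁻¹ * ρ * (τ * σ')⁻¹)
        have e : σ⁻¹ * (ρ * σ'⁻¹) * τ⁻¹ = σ⁻¹ * ρ * (τ * σ')⁻¹ := by group
        rw [e]
    | zero =>
      exact ⟨T₀.zero_mem, T₀.zero_mem⟩
    | add x y _ _ h1 h2 =>
      exact ⟨T₀.add_mem h1.1 h2.1, T₀.add_mem h1.2 h2.2⟩
    | smul c x _ h1 =>
      exact ⟨T₀.smul_mem c h1.1, T₀.smul_mem c h1.2⟩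
  have halt : ∀ J : Finset (Fin m), J.card = k + 1 → alt J ∈ T₀ := by
    intro J hJ
    apply Submodule.subset_span
    refine ⟨1, 1, J, hJ, ?_⟩
    funext ρ
    show alt J ρ = alt J (1⁻¹ * ρ * 1⁻¹)
    rw [inv_one, one_mul, mul_one]
  obtain ⟨β, h1, h2⟩ := sw1 T₀ htwo halt α
  have h3 : Ker k β := by
    have h4 := ker_add hα (ker_smul (-1) (hker _ h1))
    have e : α + (-1 : ℚ) • (α - β) = β := by
      rw [neg_smul, one_smul]
      abel
    rwa [e] at h4
  have h5 := sw2 h3 h2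
  rw [h5, sub_zero] at h1
  exact hle h1

end H25.SW
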